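import Mathlib

set_option autoImplicit false
open Set Filter Topology Metric Real

namespace Pool.Agent.H.MP_fc0bf6_an

noncomputable def m (ρ : ℝ) (k : ℕ) : ℕ := ⌈(2 * ρ) ^ k⌉₊

lemma m_ge (ρ : ℝ) (k : ℕ) : (2 * ρ) ^ k ≤ m ρ k := Nat.le_ceil _

lemma m_le {ρ : ℝ} (h : 3 / 4 ≤ ρ) (k : ℕ) : (m ρ k : ℝ) ≤ 2 * (2 * ρ) ^ k := by
  have h1 : 1 ≤ (2 * ρ) ^ k := one_le_pow₀ (by linarith)
  have := Nat.ceil_lt_add_one (zero_le_one.trans h1)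
  unfold m; linarith

noncomputable def G (ρ : ℝ) (p : ℂ → ℂ) (z : ℂ) : ℂ := ∏' k, p (z / 2 ^ k) ^ m ρ k

structure Ok (p : ℂ → ℂ) : Prop where
  d : Differentiable ℂ p
  b : ∀ w, ‖w‖ ≤ 1 → ‖p w - 1‖ ≤ 3 * ‖w‖

lemma nd (z : ℂ) (k : ℕ) : ‖z / 2 ^ k‖ = ‖z‖ / 2 ^ k := by simp

lemma ev {ρ : ℝ} (h : 3 / 4 ≤ ρ) (h1 : ρ < 1) {p : ℂ → ℂ} (hp : Ok p) (R : ℝ) :
    ∀ᶠ k in atTop, ∀ z ∈ ball (0 : ℂ) R, ‖p (z / 2 ^ k) ^ m ρ k - 1‖ ≤ 12 * R * ρ ^ k := by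
  have t := (tendsto_pow_atTop_nhds_zero_of_lt_one (by linarith) h1).const_mul (6 * R)
  rw [mul_zero] at t
  filter_upwards [t.eventually (gt_mem_nhds one_pos)] with k hk z hz
  have hz' : ‖z‖ < R := by simpa using hz
  have p2 : (0 : ℝ) < 2 ^ k := by positivity
  have e : (2 * ρ) ^ k * (‖z‖ / 2 ^ k) = ρ ^ k * ‖z‖ := by rw [mul_pow]; field_simp
  have r0 : 0 < ρ ^ k := by positivity
  have a1 : 1 ≤ (2 * ρ) ^ k := one_le_pow₀ (by linarith)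
  have n0 : 0 ≤ ‖z‖ / 2 ^ k := by positivity
  have b1 : ρ ^ k * ‖z‖ ≤ ρ ^ k * R := by gcongr
  have w1 : ‖z / 2 ^ k‖ ≤ 1 := by rw [nd]; nlinarith
  have := Finset.norm_prod_one_add_sub_one_le (Finset.range (m ρ k)) fun _ => p (z / 2 ^ k) - 1
  simp only [add_sub_cancel, Finset.prod_const, Finset.card_range, Finset.sum_const, nsmul_eq_mul] at this
  have b2 : (m ρ k : ℝ) * ‖p (z / 2 ^ k) - 1‖ ≤ 6 * R * ρ ^ k := by
    have := mul_le_mul (m_le h k) (hp.b _ w1) (norm_nonneg _) (by positivity)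
    rw [nd] at this; nlinarith
  have b3 := abs_exp_sub_one_le (x := (m ρ k : ℝ) * ‖p (z / 2 ^ k) - 1‖)
    (by rw [abs_of_nonneg (by positivity)]; linarith)
  rw [abs_of_nonneg (a := (m ρ k : ℝ) * _) (by positivity)] at b3
  linarith [le_abs_self (exp ((m ρ k : ℝ) * ‖p (z / 2 ^ k) - 1‖) - 1)]

lemma sg {ρ : ℝ} (h : 3 / 4 ≤ ρ) (h1 : ρ < 1) (C : ℝ) : Summable fun k : ℕ => C * ρ ^ k :=
  (summable_geometric_of_lt_one (by linarith) h1).mul_left C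

lemma Gd {ρ : ℝ} (h : 3 / 4 ≤ ρ) (h1 : ρ < 1) {p : ℂ → ℂ} (hp : Ok p) : Differentiable ℂ (G ρ p) := by
  intro z
  have hd := hp.d
  have := (sg h h1 (12 * (‖z‖ + 1))).hasProdLocallyUniformlyOn_nat_one_add
    (f := fun k z => p (z / 2 ^ k) ^ m ρ k - 1) isOpen_ball (ev h h1 hp _)
    fun k => Continuous.continuousOn (by have := hd.continuous; fun_prop)
  simp only [add_sub_cancel] at this
  refine (this.tendstoLocallyUniformlyOn_finsetRange.differentiableOn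
    (Eventually.of_forall fun n => Differentiable.differentiableOn ?_) isOpen_ball).differentiableAt
    (isOpen_ball.mem_nhds (by simp))
  fun_prop

lemma sn {ρ : ℝ} (h : 3 / 4 ≤ ρ) (h1 : ρ < 1) {p : ℂ → ℂ} (hp : Ok p) (z : ℂ) :
    Summable fun k => ‖p (z / 2 ^ k) ^ m ρ k - 1‖ :=
  Summable.of_norm_bounded_eventually_nat (sg h h1 (12 * (‖z‖ + 1)))
    ((ev h h1 hp (‖z‖ + 1)).mono fun k hk => by rw [norm_norm]; exact hk z (by simp))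

lemma Gp {ρ : ℝ} (h : 3 / 4 ≤ ρ) (h1 : ρ < 1) {p : ℂ → ℂ} (hp : Ok p) (z : ℂ) :
    HasProd (fun k => ‖p (z / 2 ^ k)‖ ^ m ρ k) ‖G ρ p z‖ := by
  have := multipliable_one_add_of_summable (sn h h1 hp z)
  simp only [add_sub_cancel] at this
  simpa only [norm_pow, G] using this.hasProd.norm

lemma sl {ρ : ℝ} (h : 3 / 4 ≤ ρ) (h1 : ρ < 1) {p : ℂ → ℂ} (hp : Ok p) (z : ℂ) :
    Summable fun k => (m ρ k : ℝ) * log ‖p (z / 2 ^ k)‖ := by
  simpa only [add_sub_cancel, norm_pow, log_pow] using (sn h h1 hp z).summable_log_norm_one_add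

lemma Ge {ρ : ℝ} (h : 3 / 4 ≤ ρ) (h1 : ρ < 1) {p : ℂ → ℂ} (hp : Ok p) {z : ℂ}
    (hz : ∀ k : ℕ, p (z / 2 ^ k) ≠ 0) :
    ‖G ρ p z‖ = exp (∑' k, (m ρ k : ℝ) * log ‖p (z / 2 ^ k)‖) := by
  refine (Gp h h1 hp z).unique ?_
  convert (sl h h1 hp z).hasSum.rexp using 2 with k
  rw [Function.comp, exp_nat_mul, exp_log (norm_pos_iff.2 (hz k))]

lemma Gle {ρ : ℝ} (h : 3 / 4 ≤ ρ) (h1 : ρ < 1) {p q : ℂ → ℂ} (hp : Ok p) (hq : Ok q) {z y : ℂ}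
    (hz : ∀ k : ℕ, ‖p (z / 2 ^ k)‖ ≤ ‖q (y / 2 ^ k)‖) : ‖G ρ p z‖ ≤ ‖G ρ q y‖ :=
  le_of_tendsto_of_tendsto' (Gp h h1 hp z) (Gp h h1 hq y) fun s =>
    Finset.prod_le_prod (fun _ _ => by positivity) fun k _ => by gcongr; exact hz k

lemma G0 {ρ : ℝ} {p : ℂ → ℂ} (hp : Ok p) : G ρ p 0 = 1 := by
  have : p 0 = 1 := by simpa [sub_eq_zero] using hp.b 0 (by simp)
  simp [G, this]

lemma Gz {ρ : ℝ} (h : 3 / 4 ≤ ρ) (h1 : ρ < 1) {p : ℂ → ℂ} (hp : Ok p) {z : ℂ} {k : ℕ}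
    (hz : p (z / 2 ^ k) = 0) : G ρ p z = 0 := by
  have : m ρ k ≠ 0 := by
    have : 0 < (2 * ρ) ^ k := by positivity
    exact (Nat.ceil_pos.2 this).ne'
  exact norm_eq_zero.1 ((Gp h h1 hp z).unique (hasProd_zero_of_exists_eq_zero ⟨k, by simp [hz, this]⟩))

lemma hd1 {a : ℝ} (h : 3 / 2 ≤ a) (n : ℕ) : ∑ k ∈ Finset.range (n + 1), a ^ k ≤ 3 * a ^ n := by
  induction n with
  | zero => simp
  | succ n ih =>
    rw [Finset.sum_range_succ, pow_succ]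
    have : 0 < a ^ n := by positivity
    nlinarith

lemma hd2 {a : ℝ} (h : 3 / 2 ≤ a) (n : ℕ) :
    ∑ k ∈ Finset.range (n + 1), a ^ k * (n + 1 - k) ≤ 9 * a ^ n := by
  induction n with
  | zero => simp
  | succ n ih =>
    have e : ∑ k ∈ Finset.range (n + 1 + 1), a ^ k * ((n + 1 : ℕ) + 1 - k) =
        ∑ k ∈ Finset.range (n + 1), a ^ k * (n + 1 - k) + ∑ k ∈ Finset.range (n + 1 + 1), a ^ k := by
      rw [Finset.sum_range_succ, Finset.sum_range_succ _ (n + 1), ← add_assoc, ← Finset.sum_add_distrib]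
      push_cast
      congr 1
      · exact Finset.sum_congr rfl fun k _ => by ring
      · ring
    rw [e]
    have := hd1 h (n + 1)
    rw [pow_succ] at this ⊢
    have : 0 < a ^ n := by positivity
    nlinarith

lemma split {a A B q : ℝ} (h : 3 / 2 ≤ a) (hA : 0 ≤ A) (q0 : 0 ≤ q) (q1 : q < 1) {c : ℕ → ℝ}
    (hc : Summable c) (n : ℕ) (h1 : ∀ k ≤ n, c k ≤ A * (a ^ k * (n + 1 - k)))
    (h2 : ∀ k, n < k → c k ≤ B * q ^ k) : ∑' k, c k ≤ 9 * A * a ^ n + B * q ^ (n + 1) / (1 - q) := by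
  rw [← hc.sum_add_tsum_nat_add (n + 1)]
  refine add_le_add ?_ ?_
  · refine (Finset.sum_le_sum fun k hk => h1 k (by simpa [Nat.lt_succ_iff] using hk)).trans ?_
    rw [← Finset.mul_sum]
    nlinarith [hd2 h n]
  · have := (hasSum_geometric_of_lt_one q0 q1).mul_left (B * q ^ (n + 1))
    refine hasSum_le (fun k => ?_) ((summable_nat_add_iff (n + 1)).2 hc).hasSum this
    refine (h2 _ (by omega)).trans_eq ?_
    ring

def p1 (w : ℂ) : ℂ := (1 + w) ^ 2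
def p2 (w : ℂ) : ℂ := 1 + w ^ 2

lemma ok1 : Ok p1 := ⟨by unfold p1; fun_prop, fun w hw => by
  rw [show p1 w - 1 = (2 + w) * w by unfold p1; ring, norm_mul]
  have := norm_add_le 2 w
  simp only [Complex.norm_ofNat] at this
  gcongr; linarith⟩

lemma ok2 : Ok p2 := ⟨by unfold p2; fun_prop, fun w hw => by
  rw [show p2 w - 1 = w * w by unfold p2; ring, norm_mul]
  gcongr; linarith⟩

lemma n1 (t : ℝ) : ‖p1 t‖ = (1 + t) ^ 2 := by
  rw [show p1 t = (((1 + t) ^ 2 : ℝ) : ℂ) by simp [p1], Complex.norm_real, norm_of_nonneg (by positivity)]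

lemma n2 (t : ℝ) : ‖p2 t‖ = 1 + t ^ 2 := by
  rw [show p2 t = ((1 + t ^ 2 : ℝ) : ℂ) by simp [p2], Complex.norm_real, norm_of_nonneg (by positivity)]

lemma u1 (w : ℂ) : ‖p1 w‖ ≤ (1 + ‖w‖) ^ 2 := by
  rw [p1, norm_pow]; gcongr; simpa using norm_add_le 1 w

lemma u2 (w : ℂ) : ‖p2 w‖ ≤ 1 + ‖w‖ ^ 2 := (norm_add_le 1 (w ^ 2)).trans_eq (by rw [norm_one, norm_pow])

lemma l2 (w : ℂ) : |1 - ‖w‖| * (1 + ‖w‖) ≤ ‖p2 w‖ := by
  have := abs_norm_sub_norm_le 1 (-w ^ 2)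
  rw [sub_neg_eq_add, norm_neg, norm_pow, norm_one] at this
  rwa [← abs_of_nonneg (a := 1 + ‖w‖) (by positivity), ← abs_mul,
    show (1 - ‖w‖) * (1 + ‖w‖) = 1 - ‖w‖ ^ 2 by ring]

lemma z1 {w : ℂ} (h : ‖w‖ ≠ 1) : p1 w ≠ 0 := fun k => h (by
  rw [p1, sq_eq_zero_iff, add_eq_zero_iff_neg_eq] at k
  simp [← k])

lemma z2 {w : ℂ} (h : ‖w‖ ≠ 1) : p2 w ≠ 0 :=
  norm_pos_iff.1 (lt_of_lt_of_le (mul_pos (abs_pos.2 (sub_ne_zero.2 h.symm)) (by positivity)) (l2 w))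

noncomputable def ℓ (w : ℂ) : ℝ := log ‖p1 w‖ - log ‖p2 w‖

lemma term {w : ℂ} (h : ‖w‖ ≠ 1) {η : ℝ} (η0 : 0 ≤ η) (η1 : η ≤ 1 / 100) :
    (2 ≤ ‖w‖ → ℓ (-‖w‖ : ℝ) + (1 + η) * ℓ w ≤ 2 * η) ∧
    (‖w‖ ≤ 1 / 2 → ℓ (-‖w‖ : ℝ) + (1 + η) * ℓ w ≤ 4 * η * ‖w‖) ∧
    (1 / 2 ≤ ‖w‖ → ‖w‖ ≤ 2 → ℓ (-‖w‖ : ℝ) + (1 + η) * ℓ w ≤ -1 / 4) := by
  have a0 : 0 < |1 - ‖w‖| := abs_pos.2 (sub_ne_zero.2 h.symm)
  have hu : ℓ w ≤ log ((1 + ‖w‖) / |1 - ‖w‖|) := by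
    rw [ℓ, ← log_div (norm_ne_zero_iff.2 (z1 h)) (norm_ne_zero_iff.2 (z2 h))]
    refine log_le_log (div_pos (norm_pos_iff.2 (z1 h)) (norm_pos_iff.2 (z2 h))) ?_
    refine (div_le_div₀ (by positivity) (u1 w) (by positivity) (l2 w)).trans_eq ?_
    field_simp
  have t0 := norm_nonneg w
  generalize ‖w‖ = t at *
  have hv : ℓ (-t : ℝ) = log ((1 + t) ^ 2 / (1 + t ^ 2)) - 2 * log ((1 + t) / |1 - t|) := by
    rw [ℓ, n1, n2, log_div (by positivity) (by positivity), log_div (by positivity) (by positivity),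
      log_pow, log_pow, log_abs, neg_sq, ← sub_eq_add_neg]
    push_cast; ring
  have h3 : log ((1 + t) ^ 2 / (1 + t ^ 2)) ≤ log ((1 + t) / |1 - t|) := by
    refine log_le_log (by positivity) ?_
    rw [div_le_div_iff₀ (by positivity) a0]
    have : (1 + t) * |1 - t| ≤ 1 + t ^ 2 := by
      rcases abs_cases (1 - t) with k | k <;> rw [k.1] <;> nlinarith
    nlinarith
  have h4 := mul_le_mul_of_nonneg_left hu (show 0 ≤ 1 + η by linarith)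
  have h5 := log_le_sub_one_of_pos (show 0 < (1 + t) / |1 - t| by positivity)
  refine ⟨fun k => ?_, fun k => ?_, fun k k' => ?_⟩
  · have : (1 + t) / |1 - t| ≤ 3 := by
      rw [div_le_iff₀ a0, abs_of_neg (by linarith)]; linarith
    nlinarith
  · have : (1 + t) / |1 - t| ≤ 1 + 4 * t := by
      rw [div_le_iff₀ a0, abs_of_pos (by linarith)]; nlinarith
    nlinarith
  · have h6 : log ((1 + t) ^ 2 / (1 + t ^ 2)) ≤ log 2 := by
      refine log_le_log (by positivity) ?_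
      rw [div_le_iff₀ (by positivity)]; nlinarith [sq_nonneg (1 - t)]
    have h7 : 1 ≤ log ((1 + t) / |1 - t|) := by
      rw [le_log_iff_exp_le (by positivity), le_div_iff₀ a0]
      have := exp_one_lt_d9
      have : 3 * |1 - t| ≤ 1 + t := by
        rcases abs_cases (1 - t) with k | k <;> rw [k.1] <;> linarith
      nlinarith
    nlinarith [log_two_lt_d9]

lemma low {w : ℂ} (h : ‖w‖ / 2 ≤ w.re) :
    p1 w ≠ 0 ∧ p2 w ≠ 0 ∧ 0 ≤ ℓ w ∧ (‖w‖ ≤ 1 → ‖w‖ / 4 ≤ ℓ w) := by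
  have t0 := norm_nonneg w
  have e : 1 + ‖w‖ + ‖w‖ ^ 2 ≤ ‖p1 w‖ := by
    rw [p1, norm_pow, Complex.sq_norm, Complex.sq_norm, Complex.normSq_apply, Complex.normSq_apply]
    simp; nlinarith
  have a1 : 0 < ‖p1 w‖ := lt_of_lt_of_le (by positivity) e
  have a2 : p2 w ≠ 0 := fun k => by
    have r := congrArg Complex.re k
    have i := congrArg Complex.im k
    simp [p2, sq] at r i
    have : w.re = 0 := by
      by_contra c
      have : w.im = 0 := by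
        have : w.re * w.im = 0 := by linarith
        simpa [c] using this
      rw [this] at r; nlinarith
    have : w = 0 := norm_eq_zero.1 (by linarith)
    simp [this] at r
  have a3 := norm_pos_iff.2 a2
  have u := u2 w
  refine ⟨norm_pos_iff.1 a1, a2, sub_nonneg.2 (log_le_log a3 (by linarith)), fun k => ?_⟩
  rw [ℓ, ← log_div a1.ne' a3.ne']
  refine le_trans ?_ (log_le_log (x := 1 + ‖w‖ / 2) (by positivity) ?_)
  · refine le_trans ?_ (one_sub_inv_le_log_of_pos (by positivity))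
    rw [le_sub_comm, inv_le_comm₀ (by positivity) (by linarith), inv_le_iff_one_le_mul₀ (by linarith)]
    nlinarith
  · rw [le_div_iff₀ a3]
    have : (1 + ‖w‖ / 2) * ‖p2 w‖ ≤ (1 + ‖w‖ / 2) * (1 + ‖w‖ ^ 2) := by gcongr
    nlinarith [mul_nonneg t0 (show 0 ≤ 1 - ‖w‖ ^ 2 by nlinarith)]

end Pool.Agent.H.MP_fc0bf6_an
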