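import Pool.Agent.H.MP_fc0bf6_an.A

set_option autoImplicit false
open Set Filter Topology Metric Real ValueDistribution

namespace Pool.Agent.H.MP_fc0bf6_an

noncomputable def F (ρ : ℝ) : ℂ → ℂ := G ρ p1 * (G ρ p2)⁻¹

variable {ρ : ℝ} (h : 3 / 4 ≤ ρ) (h1 : ρ < 1)
include h h1

lemma sℓ (z : ℂ) : Summable fun k => (m ρ k : ℝ) * ℓ (z / 2 ^ k) := by
  simpa only [ℓ, mul_sub] using (sl h h1 ok1 z).sub (sl h h1 ok2 z)

lemma Fl {z : ℂ} (a : ∀ k : ℕ, p1 (z / 2 ^ k) ≠ 0) (b : ∀ k : ℕ, p2 (z / 2 ^ k) ≠ 0) :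
    log ‖F ρ z‖ = ∑' k, (m ρ k : ℝ) * ℓ (z / 2 ^ k) := by
  simp only [F, Pi.mul_apply, Pi.inv_apply, norm_mul, norm_inv, Ge h h1 ok1 a, Ge h h1 ok2 b, ← exp_neg,
    ← exp_add, log_exp, ℓ, mul_sub]
  rw [(sl h h1 ok1 z).tsum_sub (sl h h1 ok2 z), sub_eq_add_neg]

omit h h1 in
lemma lg {r : ℝ} {n k : ℕ} (r0 : 0 ≤ r) (hr : r ≤ 2 ^ (n + 1)) (hk : k ≤ n) :
    log ((1 + r / 2 ^ k) ^ 2) ≤ 4 * (n + 1 - k) := by
  obtain ⟨j, rfl⟩ := Nat.exists_eq_add_of_le hk
  have : r / 2 ^ k ≤ 2 ^ (j + 1) := by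
    rw [div_le_iff₀ (by positivity), ← pow_add]; exact hr.trans_eq (by congr 1; ring)
  have a : (1 : ℝ) ≤ 2 ^ (j + 1) := one_le_pow₀ one_le_two
  have : log (1 + r / 2 ^ k) ≤ log (2 ^ (j + 2)) := log_le_log (by positivity) (by rw [pow_succ]; linarith)
  rw [log_pow] at this ⊢
  push_cast at this ⊢
  have j0 : (0 : ℝ) ≤ j := by positivity
  nlinarith [log_two_lt_d9]

omit h h1 in
lemma cs (r : ℝ) (k : ℕ) : (r : ℂ) / 2 ^ k = (r / 2 ^ k : ℝ) := by simp

lemma U1 {z : ℂ} {n : ℕ} (hr : ‖z‖ ≤ 2 ^ (n + 1)) : ‖G ρ p1 z‖ ≤ exp (80 / (1 - ρ) * (2 * ρ) ^ n) := by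
  have r0 := norm_nonneg z
  refine (Gle h h1 ok1 ok1 (y := ‖z‖) fun k => by rw [cs, n1, ← nd]; exact u1 _).trans ?_
  rw [Ge h h1 ok1 fun k => by rw [← norm_ne_zero_iff, cs, n1]; positivity, exp_le_exp]
  refine (split (a := 2 * ρ) (A := 8) (B := 4 * ‖z‖) (by linarith) (by norm_num) (by linarith) h1
    (sl h h1 ok1 _) n (fun k hk => ?_) fun k _ => ?_).trans ?_
  · rw [cs, n1]
    refine (mul_le_mul (m_le h k) (lg r0 hr hk) (log_nonneg (one_le_pow₀ (by simp; positivity)))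
      (by positivity)).trans_eq (by ring)
  · rw [cs, n1, log_pow]
    have := log_le_sub_one_of_pos (show 0 < 1 + ‖z‖ / 2 ^ k by positivity)
    refine (mul_le_mul (m_le h k) (show _ ≤ 2 * (‖z‖ / 2 ^ k) by push_cast; linarith)
      (mul_nonneg (by positivity) (log_nonneg (by simp; positivity))) (by positivity)).trans_eq ?_
    rw [mul_pow]; field_simp; ring
  · have d : 0 < 1 - ρ := by linarith
    have : ‖z‖ * ρ ^ (n + 1) ≤ 2 * (2 * ρ) ^ n := by
      refine (mul_le_mul hr (show ρ ^ (n + 1) ≤ ρ ^ n from pow_le_pow_of_le_one (by linarith) h1.le (by simp))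
        (by positivity) (by positivity)).trans_eq ?_
      rw [mul_pow]; ring
    have p : 0 < (2 * ρ) ^ n := by positivity
    rw [div_mul_eq_mul_div, le_div_iff₀ d, add_mul, div_mul_cancel₀ _ d.ne']
    nlinarith

lemma U2 {z : ℂ} {n : ℕ} (hr : ‖z‖ ≤ 2 ^ (n + 1)) : ‖G ρ p2 z‖ ≤ exp (80 * (2 * ρ) ^ n) := by
  have r0 := norm_nonneg z
  refine (Gle h h1 ok2 ok2 (y := ‖z‖) fun k => by rw [cs, n2, ← nd]; exact u2 _).trans ?_
  rw [Ge h h1 ok2 fun k => by rw [← norm_ne_zero_iff, cs, n2]; positivity, exp_le_exp]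
  refine (split (a := 2 * ρ) (A := 8) (B := 2 * ‖z‖ ^ 2) (q := ρ / 2) (by linarith) (by norm_num)
    (by linarith) (by linarith) (sl h h1 ok2 _) n (fun k hk => ?_) fun k _ => ?_).trans ?_
  · rw [cs, n2]
    have t0 : 0 ≤ ‖z‖ / 2 ^ k := by positivity
    refine (mul_le_mul (m_le h k) ((log_le_log (by positivity) (by nlinarith)).trans (lg r0 hr hk))
      (log_nonneg (by simp; positivity)) (by positivity)).trans_eq (by ring)
  · rw [cs, n2]
    have := log_le_sub_one_of_pos (show 0 < 1 + (‖z‖ / 2 ^ k) ^ 2 by positivity)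
    refine (mul_le_mul (m_le h k) (show _ ≤ (‖z‖ / 2 ^ k) ^ 2 by linarith)
      (log_nonneg (by simp; positivity)) (by positivity)).trans_eq ?_
    rw [mul_pow, div_pow, div_pow]; field_simp
  · have d : 0 < 1 - ρ / 2 := by linarith
    have : ‖z‖ ^ 2 * (ρ / 2) ^ (n + 1) ≤ 2 * ρ * (2 * ρ) ^ n := by
      refine (mul_le_mul_of_nonneg_right (pow_le_pow_left₀ r0 hr 2) (by positivity)).trans_eq ?_
      rw [mul_pow, div_pow]; field_simp; ring
    have p : 0 < (2 * ρ) ^ n := by positivity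
    rw [← le_sub_iff_add_le', div_le_iff₀ d]
    nlinarith

lemma L {z : ℂ} {n : ℕ} (hl : 2 ^ n ≤ ‖z‖) (hr : ‖z‖ ≤ 2 ^ (n + 1)) (hz : ‖z‖ / 2 ≤ z.re) :
    (2 * ρ) ^ n / (6 * (1 - ρ)) ≤ log ‖F ρ z‖ := by
  have lw (k : ℕ) := low (w := z / 2 ^ k) (by
    rw [nd, show (2 : ℂ) ^ k = (2 ^ k : ℝ) by simp, Complex.div_ofReal_re, div_right_comm]; gcongr)
  rw [Fl h h1 (fun k => (lw k).1) fun k => (lw k).2.1, ← neg_le_neg_iff, ← tsum_neg]
  refine (split (a := 2 * ρ) (A := 0) (B := -(‖z‖ / 4)) (by linarith) le_rfl (by linarith) h1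
    (sℓ h h1 z).neg n (fun k _ => ?_) fun k hk => ?_).trans ?_
  · simpa using mul_nonneg (Nat.cast_nonneg _) (lw k).2.2.1
  · have := (lw k).2.2.2 (by
      rw [nd, div_le_one (by positivity)]; exact hr.trans (pow_le_pow_right₀ one_le_two hk))
    rw [neg_mul, neg_le_neg_iff]
    refine le_trans (le_of_eq ?_) (mul_le_mul (m_ge ρ k) this (by positivity) (by positivity))
    rw [nd, mul_pow]; field_simp
  · have d : 0 < 1 - ρ := by linarith
    have : (2 * ρ) ^ n * ρ ≤ ‖z‖ * ρ ^ (n + 1) := by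
      rw [mul_pow, mul_assoc, ← pow_succ]; gcongr
    have p : 0 < (2 * ρ) ^ n := by positivity
    rw [mul_zero, zero_mul, zero_add, neg_mul, neg_div, neg_le_neg_iff, ← div_div]
    gcongr
    nlinarith

lemma K {z : ℂ} {n : ℕ} (hl : 2 ^ n ≤ ‖z‖) (hr : ‖z‖ < 2 ^ (n + 1)) (hz : ∀ k : ℕ, ‖z‖ ≠ 2 ^ k) :
    log ‖F ρ (-‖z‖ : ℝ)‖ + (1 + (1 - ρ) / 208) * log ‖F ρ z‖ ≤ 0 := by
  have r0 := norm_nonneg z
  have a (k : ℕ) : ‖z / 2 ^ k‖ ≠ 1 := by
    rw [nd, Ne, div_eq_one_iff_eq (by positivity)]; exact hz k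
  have e (k : ℕ) : ((-‖z‖ : ℝ) : ℂ) / 2 ^ k = (-‖z / 2 ^ k‖ : ℝ) := by rw [cs, nd, neg_div]
  have b (k : ℕ) : ‖((-‖z‖ : ℝ) : ℂ) / 2 ^ k‖ ≠ 1 := by simpa [e] using a k
  have d : 0 < 1 - ρ := by linarith
  set η := (1 - ρ) / 208 with hη
  have η0 : 0 < η := by positivity
  have tm (k : ℕ) := term (a k) η0.le (by rw [hη]; linarith)
  rw [Fl h h1 (fun k => z1 (a k)) fun k => z2 (a k), Fl h h1 (fun k => z1 (b k)) fun k => z2 (b k),
    ← tsum_mul_left, ← (sℓ h h1 _).tsum_add ((sℓ h h1 _).mul_left _)]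
  have s := (sℓ h h1 (-‖z‖ : ℝ)).add ((sℓ h h1 z).mul_left (1 + η))
  have s2 := hasSum_ite_eq n ((2 * ρ) ^ n / 4)
  have := split (a := 2 * ρ) (A := 4 * η) (B := 8 * η * ‖z‖) (by linarith) (by positivity) (by linarith) h1
    (s.add s2.summable) n (fun k hk => ?_) fun k hk => ?_
  · rw [s.tsum_add s2.summable, s2.tsum_eq] at this
    have b2 : ‖z‖ * ρ ^ (n + 1) ≤ 2 * (2 * ρ) ^ n := by
      refine (mul_le_mul hr.le (show ρ ^ (n + 1) ≤ ρ ^ n from pow_le_pow_of_le_one (by linarith) h1.le (by simp))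
        (by positivity) (by positivity)).trans_eq ?_
      rw [mul_pow]; ring
    have p : 0 < (2 * ρ) ^ n := by positivity
    have e2 : 8 * η * ‖z‖ * ρ ^ (n + 1) / (1 - ρ) = ‖z‖ * ρ ^ (n + 1) / 26 := by
      rw [hη]; field_simp; ring
    have : η * (2 * ρ) ^ n ≤ 1 / 208 * (2 * ρ) ^ n := by gcongr; rw [hη]; linarith
    linarith
  · rw [e, mul_left_comm, ← mul_add]
    have mk := m_le h k
    have p : 0 < (2 * ρ) ^ k := by positivity
    rcases hk.eq_or_lt with rfl | hk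
    · have := (tm k).2.2 (by
        rw [nd, le_div_iff₀ (by positivity)]; linarith [show (0 : ℝ) < 2 ^ k by positivity]) (by
        rw [nd, div_le_iff₀ (by positivity), ← pow_succ']; exact hr.le)
      have := mul_le_mul_of_nonneg_left this (Nat.cast_nonneg (m ρ k))
      have := m_ge ρ k
      rw [if_pos rfl, add_sub_cancel_left]
      nlinarith [mul_pos η0 p]
    · have := (tm k).1 (by
        rw [nd, le_div_iff₀ (by positivity), ← pow_succ']
        exact (pow_le_pow_right₀ one_le_two hk).trans hl)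
      have := mul_le_mul_of_nonneg_left this (Nat.cast_nonneg (m ρ k))
      have k1 : (k : ℝ) ≤ n := by exact_mod_cast hk.le
      rw [if_neg hk.ne]
      nlinarith [mul_pos η0 p, mul_nonneg (mul_pos η0 p).le (sub_nonneg.2 k1)]
  · rw [e, mul_left_comm, ← mul_add, if_neg hk.ne', add_zero]
    have : ℓ (-‖z / 2 ^ k‖ : ℝ) + (1 + η) * ℓ (z / 2 ^ k) ≤ 4 * η * ‖z / 2 ^ k‖ := by
      rcases le_total ‖z / 2 ^ k‖ (1 / 2) with c | c
      · exact (tm k).2.1 c
      · refine ((tm k).2.2 c ?_).trans (le_trans (b := 0) (by norm_num) (by positivity))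
        rw [nd, div_le_iff₀ (by positivity)]
        linarith [pow_le_pow_right₀ (one_le_two (α := ℝ)) (show n + 1 ≤ k from hk),
          show (0 : ℝ) < 2 ^ k by positivity]
    refine (mul_le_mul_of_nonneg_left this (Nat.cast_nonneg _)).trans ?_
    refine (mul_le_mul_of_nonneg_right (m_le h k) (by positivity)).trans_eq ?_
    rw [nd, mul_pow]; field_simp; ring

omit h h1 in
lemma Tent {g : ℂ → ℂ} (hg : Differentiable ℂ g) {r C : ℝ} (r0 : 0 < r) (C0 : 0 ≤ C)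
    (hb : ∀ z, ‖z‖ = r → ‖g z‖ ≤ exp C) : characteristic g ⊤ r ≤ C := by
  have an : AnalyticOnNhd ℂ g univ := hg.differentiableOn.analyticOnNhd isOpen_univ
  have : logCounting g ⊤ r = 0 := by
    rw [logCounting_top, negPart_eq_zero.2 (MeromorphicOn.AnalyticOnNhd.divisor_nonneg an)]; simp
  rw [characteristic, Pi.add_apply, this, add_zero, proximity_top]
  refine circleAverage_mono_on_of_le_circle
    ((an.mono (subset_univ _)).meromorphicOn.circleIntegrable_posLog_norm) fun z hz => ?_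
  refine (posLog_le_posLog (norm_nonneg _) (hb z (by simpa [abs_of_pos r0] using hz))).trans ?_
  rw [posLog_apply, log_exp]; exact max_le C0 le_rfl

lemma mer {p : ℂ → ℂ} (hp : Ok p) : Meromorphic (G ρ p) := fun z => ((Gd h h1 hp).analyticAt z).meromorphicAt

lemma ord {p : ℂ → ℂ} (hp : Ok p) (z : ℂ) : meromorphicOrderAt (G ρ p) z ≠ ⊤ := by
  refine (mer h h1 hp).meromorphicOn.meromorphicOrderAt_ne_top_of_isPreconnected isPreconnected_univ
    (x := 0) (mem_univ _) (mem_univ _) ?_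
  rw [((Gd h h1 hp).analyticAt 0).meromorphicOrderAt_eq, ((Gd h h1 hp).analyticAt 0).analyticOrderAt_eq_zero.2
    (by simp [G0 hp])]
  simp

lemma Tinv (r : ℝ) (r0 : r ≠ 0) : characteristic (G ρ p2)⁻¹ ⊤ r = characteristic (G ρ p2) ⊤ r := by
  have := characteristic_sub_characteristic_inv_of_ne_zero (mer h h1 ok2) r0
  rw [((Gd h h1 ok2).analyticAt 0).meromorphicTrailingCoeffAt_of_ne_zero (by simp [G0 ok2]), G0 ok2] at this
  simp only [norm_one, log_one] at this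
  linarith

lemma ordi (z : ℂ) : meromorphicOrderAt (G ρ p2)⁻¹ z ≠ ⊤ := by
  rw [meromorphicOrderAt_inv]; simpa using ord h h1 ok2 z

lemma merF : Meromorphic (F ρ) := (mer h h1 ok1).mul (mer h h1 ok2).inv

lemma TU {r : ℝ} {n : ℕ} (r1 : 1 ≤ r) (hr : r ≤ 2 ^ (n + 1)) :
    characteristic (F ρ) ⊤ r ≤ (80 / (1 - ρ) + 80) * (2 * ρ) ^ n ∧
      logCounting (F ρ) ⊤ r ≤ 80 * (2 * ρ) ^ n := by
  have d : 0 < 1 - ρ := by linarith
  have a := Tent (Gd h h1 ok1) (r := r) (by linarith) (by positivity) fun z hz => U1 h h1 (n := n) (hz ▸ hr)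
  have b := Tent (Gd h h1 ok2) (r := r) (by linarith) (by positivity) fun z hz => U2 h h1 (n := n) (hz ▸ hr)
  rw [← Tinv h h1 r (by linarith)] at b
  refine ⟨(characteristic_mul_top_le r1 (mer h h1 ok1) (ord h h1 ok1) (mer h h1 ok2).inv (ordi h h1)).trans ?_,
    (logCounting_mul_top_le r1 (mer h h1 ok1) (ord h h1 ok1) (mer h h1 ok2).inv (ordi h h1)).trans ?_⟩
  · rw [Pi.add_apply]; linarith
  · have an : AnalyticOnNhd ℂ (G ρ p1) univ := (Gd h h1 ok1).differentiableOn.analyticOnNhd isOpen_univ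
    have : logCounting (G ρ p1) ⊤ r = 0 := by
      rw [logCounting_top, negPart_eq_zero.2 (MeromorphicOn.AnalyticOnNhd.divisor_nonneg an)]; simp
    rw [Pi.add_apply, this, zero_add]
    refine le_trans ?_ b
    rw [characteristic, Pi.add_apply]
    exact le_add_of_nonneg_left (proximity_nonneg r)

lemma TL {r : ℝ} {n : ℕ} (r1 : 1 ≤ r) (hl : 2 ^ n ≤ r) (hr : r ≤ 2 ^ (n + 1)) :
    (2 * ρ) ^ n / (6 * (1 - ρ)) / 6 ≤ characteristic (F ρ) ⊤ r := by
  rw [characteristic, Pi.add_apply]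
  refine le_add_of_le_of_nonneg ?_ (logCounting_nonneg r1)
  rw [proximity_top, circleAverage, smul_eq_mul]
  have i : IntervalIntegrable (fun θ => log⁺ ‖F ρ (circleMap 0 r θ)‖) MeasureTheory.volume 0 (2 * π) :=
    (merF h h1).meromorphicOn.circleIntegrable_posLog_norm
  have p := pi_pos
  have i1 := intervalIntegral.integral_mono_interval (c := 0) (d := 2 * π) (a := 0) (b := π / 3) le_rfl
    (by positivity) (by linarith) (Eventually.of_forall fun θ => posLog_nonneg) i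
  have i2 := intervalIntegral.integral_mono_on (f := fun _ => (2 * ρ) ^ n / (6 * (1 - ρ))) (by positivity)
    intervalIntegrable_const (i.mono_set (uIcc_subset_uIcc_left (b := 2 * π) (x := π / 3) (by
      rw [uIcc_of_le (by positivity)]; exact ⟨by positivity, by linarith⟩))) fun θ hθ => by
      have e : ‖circleMap 0 r θ‖ = r := by simp; linarith
      refine (L h h1 (n := n) (e.symm ▸ hl) (e.symm ▸ hr) ?_).trans (le_max_right _ _)
      have := cos_le_cos_of_nonneg_of_le_pi hθ.1 (by linarith) hθ.2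
      rw [cos_pi_div_three] at this
      rw [e, circleMap_zero_re]
      nlinarith
  rw [intervalIntegral.integral_const, smul_eq_mul] at i2
  rw [← div_eq_inv_mul, le_div_iff₀ (by positivity)]
  linarith

end Pool.Agent.H.MP_fc0bf6_an
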